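import Pool.Agent.Results.MP_a0b3bb_co.Clique12
import Pool.Agent.Y418.BG.Breaker
import Pool.Agent.W629.CG.Num

/-!
# The clique threshold in the `(1:b)` Maker-Breaker game, for every bias `b`

For every `b ≥ 1` the largest clique Maker can build in the `(1:b)` game on `K_N` has
`2 log_{1+b} N - 2 log_{1+b} log_{1+b} N + O(1)` vertices.  The case `b = 2`, Maker's part, is the
question (starting file `Clique12`), whose positions and board are used.  Maker's part rests on the
multi-level potential of the starting library `Pool.Agent.Helper340.MB`, Breaker's part on the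
Erdos-Selfridge-Beck criterion formalised by helper418 in `Pool.Agent.Y418.BG.Breaker`.
-/

set_option autoImplicit false

namespace Pool.Agent.Results.MP_a0b3bb_co.UnderdogThreshold

open Finset Pool.Agent.Results.MP_a0b3bb_co.Clique12 Pool.Agent.W629.CG

/-- Breaker's turns are legal in the `(1:b)` game: each time he claims exactly `b` of the edges that
are still free after Maker's move (all of them, if fewer are left). -/
def LegalRepliesB {N : ℕ} (b : ℕ) (σ : Pos N → Finset (Sym2 (Fin N)))
    (R : ℕ → Finset (Sym2 (Fin N))) : Prop :=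
  ∀ i, R i ⊆ free (play σ R i) \ σ (play σ R i) ∧
    (R i).card = min b (free (play σ R i) \ σ (play σ R i)).card

/-- Maker has a legal strategy in the `(1:b)` game on `K_N` such that, against every legal play of
Breaker, when all edges are claimed the set of Maker's edges has the property `goal`. -/
def MakerCanForceB (b N : ℕ) (goal : Finset (Sym2 (Fin N)) → Prop) : Prop :=
  ∃ σ : Pos N → Finset (Sym2 (Fin N)), LegalStrategy σ ∧
    ∀ R : ℕ → Finset (Sym2 (Fin N)), LegalRepliesB b σ R →
      ∃ i, free (play σ R i) = ∅ ∧ goal (play σ R i).maker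

/-- The position after `i` rounds, when Maker claims the set `Q i` and then Breaker claims the set
`R i` in round `i`. -/
def pos {N : ℕ} (Q R : ℕ → Finset (Sym2 (Fin N))) : ℕ → Pos N
  | 0 => ⟨∅, ∅⟩
  | i + 1 => ⟨(pos Q R i).maker ∪ Q i, (pos Q R i).breaker ∪ R i⟩

/-- A legal turn of Maker: exactly one free edge (nothing when the board is exhausted). -/
def LegalMaker {N : ℕ} (p : Pos N) (Q : Finset (Sym2 (Fin N))) : Prop :=
  Q ⊆ free p ∧ Q.card = min 1 (free p).card

/-- A legal turn of Breaker, after Maker has claimed `Q`: exactly `b` of the edges which are still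
free, or all of them, if fewer than `b` are left. -/
def LegalBreaker {N : ℕ} (b : ℕ) (p : Pos N) (Q R : Finset (Sym2 (Fin N))) : Prop :=
  R ⊆ free p \ Q ∧ R.card = min b (free p \ Q).card

/-- Breaker has a legal strategy `τ` in the `(1:b)` game on `K_N` which guarantees, whatever legal
moves Maker makes, that at no time Maker's edges contain a copy of `K_q`. -/
def BreakerCanPrevent (b N q : ℕ) : Prop :=
  ∃ τ : Pos N → Finset (Sym2 (Fin N)) → Finset (Sym2 (Fin N)),
    (∀ p Q, LegalBreaker b p Q (τ p Q)) ∧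
    ∀ Q R : ℕ → Finset (Sym2 (Fin N)), (∀ i, LegalMaker (pos Q R i) (Q i)) →
      (∀ i, R i = τ (pos Q R i) (Q i)) → ∀ i, ¬ ContainsClique q (pos Q R i).maker

/-- For `b = 2` the notion is the one of the starting file. -/
theorem makerCanForceB_two (N : ℕ) (goal : Finset (Sym2 (Fin N)) → Prop) :
    MakerCanForceB 2 N goal ↔ MakerCanForce N goal := Iff.rfl

section breaker

open Pool.Agent.Y418.BG.Breaker

variable {N : ℕ} {b q : ℕ}

/-- the edges inside a set of vertices -/
def edgesOf (S : Finset (Fin N)) : Finset (Sym2 (Fin N)) :=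
  S.offDiag.image (fun p => s(p.1, p.2))

theorem edgesOf_card (S : Finset (Fin N)) : (edgesOf S).card = S.card.choose 2 :=
  Sym2.card_image_offDiag S

theorem edgesOf_subset {S : Finset (Fin N)} {M : Finset (Sym2 (Fin N))}
    (h : ∀ u ∈ S, ∀ v ∈ S, u ≠ v → s(u, v) ∈ M) : edgesOf S ⊆ M := by
  intro z hz
  obtain ⟨p, hp, rfl⟩ := mem_image.1 hz
  rw [mem_offDiag] at hp
  exact h _ hp.1 _ hp.2.1 hp.2.2

/-- the edge sets of the cliques on `q` vertices -/
def cliques (q N : ℕ) : Finset (Finset (Sym2 (Fin N))) :=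
  (powersetCard q (univ : Finset (Fin N))).image edgesOf

/-- the base of the weights -/
noncomputable def gg (b : ℕ) : ℝ := (1 + b : ℝ) ^ (1 / ((1 : ℕ) : ℝ))

theorem gg_eq (b : ℕ) : gg b = 1 + b := by
  unfold gg
  simp

theorem gg_pos : 0 < gg b := by
  rw [gg_eq]; positivity

theorem exists_reply' (b q : ℕ) (p : Pos N) (Q : Finset (Sym2 (Fin N))) :
    ∃ R, LegalBreaker b p Q R ∧ ∀ Q' ⊆ (free p \ Q) \ R, Q'.card ≤ 1 →
      psi (gg b) (cliques q N) (p.maker ∪ Q ∪ Q') (p.breaker ∪ R)
        ≤ psi (gg b) (cliques q N) (p.maker ∪ Q) p.breaker := by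
  have hd : Disjoint (free p \ Q) (p.maker ∪ Q) := by
    rw [Finset.disjoint_left]
    intro e he he'
    unfold free at he
    simp only [mem_sdiff, mem_union, not_or] at he he'
    tauto
  obtain ⟨R, h1, h2, h3⟩ := exists_reply (F := cliques q N) (a := 1) (b := b) le_rfl (p.maker ∪ Q)
    p.breaker (free p \ Q) hd
  exact ⟨R, ⟨h1, h2⟩, h3⟩

/-- the strategy of Breaker -/
noncomputable def reply (b q : ℕ) (p : Pos N) (Q : Finset (Sym2 (Fin N))) :
    Finset (Sym2 (Fin N)) :=
  (exists_reply' b q p Q).choose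

theorem pos_disjoint {Q R : ℕ → Finset (Sym2 (Fin N))} (hQ : ∀ i, LegalMaker (pos Q R i) (Q i))
    (hR : ∀ i, LegalBreaker b (pos Q R i) (Q i) (R i)) (i : ℕ) :
    Disjoint (pos Q R i).maker (pos Q R i).breaker := by
  induction i with
  | zero => simp [pos]
  | succ i ih =>
    have h1 := (hQ i).1
    have h2 := (hR i).1
    rw [Finset.disjoint_left] at ih ⊢
    intro e he he'
    simp only [pos, mem_union] at he he'
    rcases he with he | he
    · rcases he' with he' | he'
      · exact ih he he'
      · have h3 := h2 he'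
        unfold free at h3
        simp only [mem_sdiff, mem_union, not_or] at h3
        exact h3.1.2.1 he
    · rcases he' with he' | he'
      · have h3 := h1 he
        unfold free at h3
        simp only [mem_sdiff, mem_union, not_or] at h3
        exact h3.2.2 he'
      · have h3 := h2 he'
        rw [mem_sdiff] at h3
        exact h3.2 he

theorem canPrevent_of_small
    (h : (1 + b : ℝ) * ((N.choose q : ℝ) * (1 / (1 + b : ℝ)) ^ (q.choose 2)) < 1) :
    BreakerCanPrevent b N q := by
  refine ⟨reply b q, fun p Q => (exists_reply' b q p Q).choose_spec.1, ?_⟩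
  intro Q R hQ hτ
  have hg := gg_pos (b := b)
  have hR : ∀ i, LegalBreaker b (pos Q R i) (Q i) (R i) := by
    intro i
    rw [hτ i]
    exact (exists_reply' b q (pos Q R i) (Q i)).choose_spec.1
  have h0 : psi (gg b) (cliques q N) ∅ ∅ ≤ (N.choose q : ℝ) * (1 / gg b) ^ (q.choose 2) := by
    unfold psi
    have h1 : ∀ A ∈ cliques q N, w (gg b) ∅ ∅ A ≤ (1 / gg b) ^ (q.choose 2) := by
      intro A hA
      unfold cliques at hA
      rw [mem_image] at hA
      obtain ⟨S, hS, rfl⟩ := hA
      rw [mem_powersetCard] at hS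
      unfold w
      simp [edgesOf_card, hS.2]
    refine (Finset.sum_le_sum h1).trans ?_
    rw [Finset.sum_const, nsmul_eq_mul]
    apply mul_le_mul_of_nonneg_right _ (by positivity)
    have h2 : (cliques q N).card ≤ N.choose q := by
      unfold cliques
      refine Finset.card_image_le.trans ?_
      rw [card_powersetCard]; simp
    exact_mod_cast h2
  have hinv : ∀ i, psi (gg b) (cliques q N) ((pos Q R i).maker ∪ Q i) (pos Q R i).breaker
      < 1 := by
    intro i
    induction i with
    | zero =>
      have h1 : (Q 0).card ≤ 1 := by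
        rw [(hQ 0).2]; exact min_le_left _ _
      have h2 := psi_first (F := cliques q N) (a := 1) (b := b) le_rfl (Q 0) h1
      simp only [pos, Finset.empty_union]
      have hB : (0 : ℝ) ≤ 1 + b := by positivity
      calc psi (gg b) (cliques q N) (Q 0) ∅
          ≤ (1 + b) * psi (gg b) (cliques q N) ∅ ∅ := h2
        _ ≤ (1 + b) * ((N.choose q : ℝ) * (1 / gg b) ^ (q.choose 2)) :=
            mul_le_mul_of_nonneg_left h0 hB
        _ < 1 := by rw [gg_eq]; exact h
    | succ i ih =>
      have h1 := (exists_reply' b q (pos Q R i) (Q i)).choose_spec.2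
      have h2 : (exists_reply' b q (pos Q R i) (Q i)).choose = R i := (hτ i).symm
      rw [h2] at h1
      have h3 : (Q (i + 1)).card ≤ 1 := by
        rw [(hQ (i + 1)).2]; exact min_le_left _ _
      have h4 : Q (i + 1) ⊆ (free (pos Q R i) \ Q i) \ R i := by
        intro e he
        have h5 := (hQ (i + 1)).1 he
        unfold free at h5 ⊢
        simp only [pos, mem_sdiff, mem_union, not_or] at h5 ⊢
        exact ⟨⟨⟨h5.1, h5.2.1.1, h5.2.2.1⟩, h5.2.1.2⟩, h5.2.2.2⟩
      exact lt_of_le_of_lt (h1 _ h4 h3) ih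
  intro i hc
  obtain ⟨S, hS, hSM⟩ := hc
  have hSM' := edgesOf_subset hSM
  have h1 : edgesOf S ∈ cliques q N := by
    unfold cliques
    exact mem_image_of_mem _ (mem_powersetCard.mpr ⟨subset_univ _, hS⟩)
  have h2 : Disjoint (edgesOf S) (pos Q R i).breaker :=
    Finset.disjoint_of_subset_left hSM' (pos_disjoint hQ hR i)
  have h3 := psi_ge_one (F := cliques q N) (g := gg b) hg h1 h2
    (hSM'.trans (Finset.subset_union_left (s₂ := Q i)))
  exact absurd (hinv i) (not_lt.mpr h3)

end breaker

/-- **The clique threshold of the `(1:b)` game.** For every `b ≥ 1` there is a constant `C` such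
that for all sufficiently large `N`, with
`thr b N = 2 log_{1+b} N - 2 log_{1+b} log_{1+b} N`:

1. Maker has one strategy in the `(1:b)` game on `K_N` which achieves `K_q` for every
   `q ≤ thr b N - C` (and this range is not vacuous);
2. for every `q ≥ thr b N + 3 + 4 / log (1+b)` Breaker has a strategy which prevents Maker from
   ever owning a `K_q`. -/
theorem result (b : ℕ) (hb : 1 ≤ b) :
    ∃ C : ℝ, ∃ N₀ : ℕ, ∀ N : ℕ, N₀ ≤ N →
      7 ≤ thr b N - C ∧
      MakerCanForceB b N (fun M => ∀ q : ℕ, (q : ℝ) ≤ thr b N - C → ContainsClique q M) ∧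
      ∀ q : ℕ, thr b N + 3 + 4 / Real.log (1 + b) ≤ q → BreakerCanPrevent b N q := by
  obtain ⟨C, N₀, h⟩ := Pool.Agent.Helper340.MB.clique_forces 1 b le_rfl hb
  obtain ⟨N₁, h₁⟩ := small b hb
  have hcc : Pool.Agent.Helper340.MB.cc 1 b = 1 + b := by
    unfold Pool.Agent.Helper340.MB.cc; norm_num
  rw [hcc] at h
  refine ⟨C, max N₀ N₁, ?_⟩
  intro N hN
  obtain ⟨h7, hf⟩ := h N ((le_max_left _ _).trans hN)
  refine ⟨h7, ?_, fun q hq => canPrevent_of_small (h₁ N ((le_max_right _ _).trans hN) q hq)⟩
  obtain ⟨σ, hσ, hplay⟩ := Pool.Agent.Helper340.MB.exists_strategy (le_refl 1) hf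
  refine ⟨fun p => σ p.maker p.breaker, fun p => hσ p.maker p.breaker, ?_⟩
  intro R hR
  obtain ⟨i, hi, hg⟩ := hplay (fun i => (play (fun p => σ p.maker p.breaker) R i).maker)
    (fun i => (play (fun p => σ p.maker p.breaker) R i).breaker) R rfl rfl
    (fun _ => rfl) (fun _ => rfl) (fun i => hR i)
  refine ⟨i, hi, ?_⟩
  intro q hq
  exact Pool.Agent.Helper340.MB.HasClique.mono (Nat.le_floor hq) hg

end Pool.Agent.Results.MP_a0b3bb_co.UnderdogThreshold
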